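import Mathlib

/-!
# The strong polarized relation and the bounding number

Let `kap` be regular and uncountable and let `b` be its bounding number.  We show that the strong
polarized relation for the pair `b`, `kap` fails if `kap` is not measurable.  In particular, if
`kap` is weakly compact and not measurable and the strong polarized relation holds for the pair
`succ kap`, `kap`, then `succ kap < b`.  Without the assumption that `kap` is not measurable the
relation for the pair `b`, `kap` yields a very special normal measure on `kap`.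

Sketch of proof.  Step 1: some family of `b` functions is unbounded even modulo closed unbounded
sets.  Step 2: given such a family `f`, the sets on which `f` is bounded modulo closed unbounded
sets form a normal ideal.  If `V` and its complement are both outside of this ideal, then we colour
`(i, x)` according to whether the largest point below or equal to `x` that is closed under `u i`
belongs to `V`, where `u i` dominates all `f j` with `j < i`.  If `A × B` is homogeneous, then
the function `next point of B` bounds `f` on `V` or on its complement, a contradiction.  Hence the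
ideal is prime, and its dual filter is a normal measure.
-/

open Cardinal Set

universe u

namespace Pool.Agent.Results.MP_668fe5_lc.BoundingNumber

/-! ### Definitions -/

/-- The strong polarized relation with two colours: every colouring `c` of `lam × kap` by two
colours is constant on `A × B` for some `A ⊆ lam` of size `lam` and some `B ⊆ kap` of size
`kap`.  The well ordered type `lam.ord.ToType` stands for the initial ordinal `lam`. -/
def StrongPolarized (lam kap : Cardinal.{u}) : Prop :=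
  ∀ c : lam.ord.ToType → kap.ord.ToType → Bool,
    ∃ (A : Set lam.ord.ToType) (B : Set kap.ord.ToType),
      Cardinal.mk A = lam ∧ Cardinal.mk B = kap ∧ ∃ i : Bool, ∀ a ∈ A, ∀ b ∈ B, c a b = i

/-- Eventual domination of functions on a linear order: `f x ≤ g x` for all large enough `x`. -/
def EvLE {K : Type u} [LinearOrder K] (f g : K → K) : Prop :=
  ∃ a, ∀ x, a ≤ x → f x ≤ g x

/-- The bounding number of `kap`: the least size of a family of functions from `kap` to `kap`
which is not eventually dominated by a single function. -/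
noncomputable def bounding (kap : Cardinal.{u}) : Cardinal.{u} :=
  sInf {mu | ∃ F : Set (kap.ord.ToType → kap.ord.ToType), Cardinal.mk F = mu ∧
    ¬ ∃ g : kap.ord.ToType → kap.ord.ToType, ∀ f ∈ F, EvLE f g}

/-- `kap` is measurable: it is uncountable and carries an ultrafilter which contains no singleton
and is closed under intersections of fewer than `kap` members. -/
def IsMeasurableCardinal (kap : Cardinal.{u}) : Prop :=
  ℵ₀ < kap ∧ ∃ U : Ultrafilter kap.ord.ToType, (∀ x, {x} ∉ U) ∧
    ∀ S : Set (Set kap.ord.ToType), Cardinal.mk S < kap → (∀ s ∈ S, s ∈ U) → ⋂₀ S ∈ U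

/-- `U` is a normal measure on `kap`: it contains no singleton, is closed under intersections of
fewer than `kap` members, and is closed under diagonal intersections. -/
def IsNormalMeasure (kap : Cardinal.{u}) (U : Ultrafilter kap.ord.ToType) : Prop :=
  (∀ x, {x} ∉ U) ∧
  (∀ S : Set (Set kap.ord.ToType), Cardinal.mk S < kap → (∀ s ∈ S, s ∈ U) → ⋂₀ S ∈ U) ∧
  ∀ V : kap.ord.ToType → Set kap.ord.ToType, (∀ y, V y ∈ U) → {x | ∀ y < x, x ∈ V y} ∈ U

/-- `V ⊆ kap` is a set on which all families of at most `bounding kap` functions are bounded modulo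
closed unbounded sets: there is `g` such that for every member `f` of the family, `f ≤ g` holds on
`V ∩ C` for some closed unbounded set `C`. -/
def BoundedOn (kap : Cardinal.{u}) (V : Set kap.ord.ToType) : Prop :=
  ∀ F : Set (kap.ord.ToType → kap.ord.ToType), Cardinal.mk F ≤ bounding kap →
    ∃ g : kap.ord.ToType → kap.ord.ToType, ∀ f ∈ F, ∃ C, IsClub C ∧ ∀ x ∈ V ∩ C, f x ≤ g x

/-- `kap` is weakly compact: it is uncountable and every colouring of the pairs `x < y` of elements
of `kap` by two colours has a homogeneous set of size `kap`. -/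
def IsWeaklyCompact (kap : Cardinal.{u}) : Prop :=
  ℵ₀ < kap ∧ ∀ c : kap.ord.ToType → kap.ord.ToType → Bool,
    ∃ H : Set kap.ord.ToType, Cardinal.mk H = kap ∧ ∃ i : Bool, ∀ x ∈ H, ∀ y ∈ H, x < y → c x y = i

/-! ### Regular well orders -/

section Basic

variable {K : Type u} [LinearOrder K] [WellFoundedLT K]

/-- Working form of regularity for a well order `K`: families of fewer points than there
are in `K` are strictly bounded, proper initial segments are small, and `K` is uncountable. -/
structure Reg (K : Type u) [LinearOrder K] : Prop where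
  /-- small families are strictly bounded -/
  bdd : ∀ {ι : Type u} (f : ι → K), Cardinal.mk ι < Cardinal.mk K → ∃ b, ∀ i, f i < b
  /-- initial segments are small -/
  small : ∀ x : K, Cardinal.mk (Iic x) < Cardinal.mk K
  /-- uncountable -/
  unc : ℵ₀ < Cardinal.mk K

theorem reg_of_isRegular {kap : Cardinal.{u}} (h0 : ℵ₀ < kap) (h : kap.IsRegular) :
    Reg kap.ord.ToType := by
  have hsm : ∀ x : kap.ord.ToType, Cardinal.mk (Iio x) < kap := fun x => by
    simpa using Cardinal.mk_Iio_lt x
  have hbd : ∀ {ι : Type u} (f : ι → kap.ord.ToType), Cardinal.mk ι < Cardinal.mk kap.ord.ToType →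
      ∃ b, ∀ i, f i < b := by
    intro ι f hι
    by_contra hcon
    push Not at hcon
    have hcof : IsCofinal (range f) := by
      intro b
      obtain ⟨i, hi⟩ := hcon b
      exact ⟨f i, mem_range_self i, hi⟩
    have h1 := Order.cof_le hcof
    have h2 : Order.cof kap.ord.ToType = kap := by
      rw [Ordinal.cof_toType, h.cof_ord]
    have h3 : Cardinal.mk (range f) ≤ Cardinal.mk ι := mk_range_le
    rw [h2] at h1
    rw [mk_toType, card_ord] at hι
    exact absurd (h1.trans h3) (not_le.mpr hι)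
  refine ⟨hbd, ?_, ?_⟩
  · intro x
    rw [mk_toType, card_ord]
    have hsub : Iic x = Iio x ∪ {x} := by
      ext y; simp [le_iff_lt_or_eq]
    rw [hsub]
    refine lt_of_le_of_lt (mk_union_le _ _) ?_
    exact add_lt_of_lt h0.le (hsm x) (by simpa using (one_lt_aleph0.trans h0))
  · rw [mk_toType, card_ord]; exact h0

variable (h : Reg K)
include h

omit [WellFoundedLT K] in
theorem Reg.bddNat (f : ℕ → K) : ∃ b, ∀ n, f n < b := by
  obtain ⟨b, hb⟩ := h.bdd (fun i : ULift.{u} ℕ => f i.down) (by simpa using h.unc)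
  exact ⟨b, fun n => hb ⟨n⟩⟩

omit [WellFoundedLT K] in
theorem Reg.exists_pt : Nonempty K :=
  mk_ne_zero_iff.mp (ne_of_gt (lt_of_le_of_lt zero_le h.unc))

omit [WellFoundedLT K] in
theorem Reg.exists_gt (x : K) : ∃ y, x < y := by
  obtain ⟨b, hb⟩ := h.bddNat (fun _ => x)
  exact ⟨b, hb 0⟩

omit [WellFoundedLT K] in
theorem Reg.bddIic (f : K → K) (x : K) : ∃ b, ∀ y ≤ x, f y < b := by
  obtain ⟨b, hb⟩ := h.bdd (fun i : Iic x => f i) (h.small x)
  exact ⟨b, fun y hy => hb ⟨y, hy⟩⟩

/-- monotone hull of a function -/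
theorem Reg.exists_hull (f : K → K) : ∃ g : K → K, Monotone g ∧ ∀ x, f x ≤ g x := by
  choose b hb using fun x => h.bddIic f x
  let S : K → Set K := fun x => {z | ∀ y ≤ x, f y < z}
  have hS : ∀ x, (S x).Nonempty := fun x => ⟨b x, hb x⟩
  refine ⟨fun x => wellFounded_lt.min (S x) (hS x), ?_, ?_⟩
  · intro x y hxy
    apply WellFounded.min_le
    intro z hz
    exact wellFounded_lt.min_mem (S y) (hS y) z (hz.trans hxy)
  · intro x
    exact (wellFounded_lt.min_mem (S x) (hS x) x le_rfl).le

/-- `x` is closed under `h` -/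
def Cl (h : K → K) (x : K) : Prop := ∀ y < x, h y < x

omit h [WellFoundedLT K] in
theorem Cl.mono {g g' : K → K} {x : K} (hg : ∀ y, g y ≤ g' y) (hx : Cl g' x) : Cl g x :=
  fun y hy => lt_of_le_of_lt (hg y) (hx y hy)

theorem Reg.exists_cl (g : K → K) (x : K) : ∃ z, x < z ∧ Cl g z := by
  have hb : ∀ y, ∃ b, y < b ∧ ∀ y' ≤ y, g y' < b := by
    intro y
    obtain ⟨b, hb⟩ := h.bddIic g y
    obtain ⟨b', hb'⟩ := h.exists_gt (max b y)
    exact ⟨b', lt_of_le_of_lt (le_max_right _ _) hb',
      fun y' hy' => (hb y' hy').trans (lt_of_le_of_lt (le_max_left _ _) hb')⟩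
  choose b hb1 hb2 using hb
  let z : ℕ → K := fun n => Nat.rec x (fun _ w => b w) n
  have hz1 : ∀ n, z (n + 1) = b (z n) := fun n => rfl
  obtain ⟨c, hc⟩ := h.bddNat z
  let S : Set K := {w | ∀ n, z n ≤ w}
  have hS : S.Nonempty := ⟨c, fun n => (hc n).le⟩
  have hm := wellFounded_lt.min_mem S hS
  refine ⟨wellFounded_lt.min S hS, ?_, ?_⟩
  · exact lt_of_lt_of_le (hb1 x) (hm 1)
  · intro y hy
    have : ¬ (∀ n, z n ≤ y) := fun hcon =>
      absurd (WellFounded.min_le wellFounded_lt (s := S) hcon) (not_le.mpr hy)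
    push Not at this
    obtain ⟨n, hn⟩ := this
    exact lt_of_lt_of_le (hb2 (z n) y hn.le) (hm (n + 1))

omit h in
/-- the largest closed point below `ζ` -/
theorem exists_max (g : K → K) (a ζ ξ : K) (h1 : ξ ≤ ζ) (h2 : a ≤ ξ) (h3 : Cl g ξ) :
    ∃ η, η ≤ ζ ∧ a ≤ η ∧ Cl g η ∧ ∀ x ≤ ζ, a ≤ x → Cl g x → x ≤ η := by
  let S : Set K := {w | ∀ x ≤ ζ, a ≤ x → Cl g x → x ≤ w}
  have hS : S.Nonempty := ⟨ζ, fun x hx _ _ => hx⟩
  have hm := wellFounded_lt.min_mem S hS
  refine ⟨wellFounded_lt.min S hS, ?_, ?_, ?_, hm⟩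
  · exact WellFounded.min_le wellFounded_lt (s := S) (fun x hx _ _ => hx)
  · exact h2.trans (hm ξ h1 h2 h3)
  · intro y hy
    have : ¬ (y ∈ S) := fun hcon =>
      absurd (WellFounded.min_le wellFounded_lt (s := S) hcon) (not_le.mpr hy)
    simp only [S, mem_ofPred_eq] at this
    push Not at this
    obtain ⟨x, hx1, hx2, hx3, hx4⟩ := this
    exact lt_of_lt_of_le (hx3 y hx4) (hm x hx1 hx2 hx3)

/-- `f ≤ g` on the part of `W` in a closed unbounded set. -/
def CLE (W : Set K) (f g : K → K) : Prop :=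
  ∃ (p : K → K) (a : K), ∀ x ∈ W, a ≤ x → Cl p x → f x ≤ g x

/-- Step 1: if all families indexed by `I` are bounded modulo closed unbounded sets, then all
families indexed by `I` are bounded modulo initial segments. -/
theorem Reg.step1 {I : Type u}
    (H : ∀ f : I → K → K, ∃ g : K → K, ∀ i, CLE univ (f i) g) (f : I → K → K) :
    ∃ g : K → K, ∀ i, EvLE (f i) g := by
  -- witnesses
  have H' : ∀ f : I → K → K, ∃ (g : K → K) (p : I → K → K) (a : I → K),
      ∀ i x, a i ≤ x → Cl (p i) x → f i x ≤ g x := by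
    intro f
    obtain ⟨g, hg⟩ := H f
    choose p a hpa using hg
    exact ⟨g, p, a, fun i x h1 h2 => hpa i x (mem_univ x) h1 h2⟩
  choose G P A hGPA using H'
  -- next point
  have hnx : ∀ (p : K → K) (a ξ : K), ∃ z, ξ < z ∧ a ≤ z ∧ Cl p z := by
    intro p a ξ
    obtain ⟨z, hz1, hz2⟩ := h.exists_cl p (max a ξ)
    exact ⟨z, lt_of_le_of_lt (le_max_right _ _) hz1, (lt_of_le_of_lt (le_max_left _ _) hz1).le,
      hz2⟩
  choose nx hnx1 hnx2 hnx3 using hnx
  -- monotone hulls of the given functions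
  choose F0 hF0m hF0 using fun i => h.exists_hull (f i)
  -- the recursion
  let NX : (I → K → K) × (I → K) → (I → K → K) := fun s i ξ => nx (s.1 i) (s.2 i) ξ
  let st : (I → K → K) × (I → K) → (I → K → K) × (I → K) := fun s =>
    (fun i x => max (s.1 i x) (P (NX s) i x), fun i => max (s.2 i) (A (NX s) i))
  let s : ℕ → (I → K → K) × (I → K) := fun n => Nat.rec (P F0, A F0) (fun _ t => st t) n
  have hs0 : s 0 = (P F0, A F0) := rfl
  have hs1 : ∀ n, s (n + 1) = st (s n) := fun n => rfl
  -- all the bounds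
  have hGG : ∃ Gh : K → K, Monotone Gh ∧ (∀ x, G F0 x ≤ Gh x) ∧
      ∀ n x, G (NX (s n)) x ≤ Gh x := by
    choose b hb using fun x => h.bddNat (fun n => G (NX (s n)) x)
    obtain ⟨Gh, hGh1, hGh2⟩ := h.exists_hull (fun x => max (b x) (G F0 x))
    exact ⟨Gh, hGh1, fun x => (le_max_right _ _).trans (hGh2 x),
      fun n x => ((hb x n).le.trans (le_max_left _ _)).trans (hGh2 x)⟩
  obtain ⟨Gh, hGh, hG0, hGn⟩ := hGG
  refine ⟨fun x => Gh (Gh x), fun i => ?_⟩
  -- common closed point
  have hmonoP : ∀ n y, (s n).1 i y ≤ (s (n + 1)).1 i y := by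
    intro n y; rw [hs1]; exact le_max_left _ _
  have hmonoA : ∀ n, (s n).2 i ≤ (s (n + 1)).2 i := by
    intro n; rw [hs1]; exact le_max_left _ _
  have hP0 : ∀ n y, P F0 i y ≤ (s n).1 i y := by
    intro n y
    induction n with
    | zero => exact le_rfl
    | succ n ih => exact ih.trans (hmonoP n y)
  have hA0 : ∀ n, A F0 i ≤ (s n).2 i := by
    intro n
    induction n with
    | zero => exact le_rfl
    | succ n ih => exact ih.trans (hmonoA n)
  choose Pi hPi using fun y => h.bddNat (fun n => (s n).1 i y)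
  obtain ⟨Ai, hAi⟩ := h.bddNat (fun n => (s n).2 i)
  obtain ⟨ξ, hξ1, hξ2⟩ := h.exists_cl Pi Ai
  refine ⟨ξ, fun ζ hζ => ?_⟩
  -- largest closed points
  have hmax : ∀ n, ∃ η, η ≤ ζ ∧ (s n).2 i ≤ η ∧ Cl ((s n).1 i) η ∧
      ∀ x ≤ ζ, (s n).2 i ≤ x → Cl ((s n).1 i) x → x ≤ η := by
    intro n
    exact exists_max _ _ ζ ξ hζ ((hAi n).le.trans hξ1.le)
      (hξ2.mono (fun y => (hPi y n).le))
  choose η hη1 hη2 hη3 hη4 using hmax
  obtain ⟨n, hn⟩ : ∃ n, ∀ m, η n ≤ η m := by
    have hne : (range η).Nonempty := ⟨η 0, mem_range_self 0⟩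
    obtain ⟨n, hn⟩ := wellFounded_lt.min_mem (range η) hne
    exact ⟨n, fun m => by rw [hn]; exact WellFounded.min_le wellFounded_lt (mem_range_self m)⟩
  have heq : η n = η (n + 1) := by
    refine le_antisymm (hn _) ?_
    exact hη4 n _ (hη1 (n + 1)) ((hmonoA n).trans (hη2 (n + 1)))
      ((hη3 (n + 1)).mono (hmonoP n))
  have hA' : A (NX (s n)) i ≤ η n := by
    rw [heq]
    refine le_trans ?_ (hη2 (n + 1))
    rw [hs1]; exact le_max_right _ _
  have hP' : Cl (P (NX (s n)) i) (η n) := by
    rw [heq]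
    refine (hη3 (n + 1)).mono (fun y => ?_)
    rw [hs1]; exact le_max_right _ _
  have hz := hGPA (NX (s n)) i (η n) hA' hP'
  set z := NX (s n) i (η n) with hzdef
  have hz1 : η n < z := hnx1 _ _ _
  have hz2 : (s n).2 i ≤ z := hnx2 _ _ _
  have hz3 : Cl ((s n).1 i) z := hnx3 _ _ _
  have hz4 : ζ < z := by
    by_contra hcon
    exact absurd (hη4 n z (not_lt.mp hcon) hz2 hz3) (not_le.mpr hz1)
  have h5 : F0 i z ≤ G F0 z := hGPA F0 i z ((hA0 n).trans hz2) (hz3.mono (hP0 n))
  calc f i ζ ≤ F0 i ζ := hF0 i ζ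
    _ ≤ F0 i z := hF0m i hz4.le
    _ ≤ G F0 z := h5
    _ ≤ Gh z := hG0 z
    _ ≤ Gh (G (NX (s n)) (η n)) := hGh hz
    _ ≤ Gh (Gh (η n)) := hGh (hGn n _)
    _ ≤ Gh (Gh ζ) := hGh (hGh (hη1 n))

/-- The relation `CLE` in terms of closed unbounded sets. -/
theorem Reg.cle_iff (W : Set K) (f g : K → K) :
    CLE W f g ↔ ∃ C, IsClub C ∧ ∀ x ∈ W ∩ C, f x ≤ g x := by
  constructor
  · rintro ⟨p, a, hpa⟩
    refine ⟨{x | a ≤ x ∧ Cl p x}, ⟨?_, ?_⟩, fun x hx => hpa x hx.1 hx.2.1 hx.2.2⟩
    · intro d hd hne _ x hx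
      obtain ⟨z, hz⟩ := hne
      refine ⟨(hd hz).1.trans (hx.1 hz), fun y hy => ?_⟩
      obtain ⟨w, hw1, hw2⟩ : ∃ w ∈ d, y < w := by
        by_contra hcon
        push Not at hcon
        exact absurd (hx.2 hcon) (not_le.mpr hy)
      exact ((hd hw1).2 y hw2).trans_le (hx.1 hw1)
    · intro x
      obtain ⟨z, hz1, hz2⟩ := h.exists_cl p (max a x)
      exact ⟨z, ⟨(le_max_left _ _).trans hz1.le, hz2⟩, (le_max_right _ _).trans hz1.le⟩
  · rintro ⟨C, hC, hfg⟩
    have hp : ∀ y, ∃ z ∈ C, y < z := by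
      intro y
      obtain ⟨y', hy'⟩ := h.exists_gt y
      obtain ⟨z, hz1, hz2⟩ := hC.isCofinal y'
      exact ⟨z, hz1, hy'.trans_le hz2⟩
    choose p hp1 hp2 using hp
    obtain ⟨x0⟩ := h.exists_pt
    obtain ⟨a, ha⟩ := h.exists_gt x0
    refine ⟨p, a, fun x hx h1 h2 => hfg x ⟨hx, ?_⟩⟩
    refine hC.isLUB_mem (t := p '' Iio x) ?_ ⟨p x0, mem_image_of_mem p (ha.trans_le h1)⟩ ?_
    · rintro _ ⟨y, _, rfl⟩
      exact hp1 y
    · refine ⟨?_, fun b hb => ?_⟩
      · rintro _ ⟨y, hy, rfl⟩
        exact (h2 y hy).le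
      · by_contra hcon
        rw [not_le] at hcon
        exact absurd (hb (mem_image_of_mem p hcon)) (not_le.mpr (hp2 b))

/-- The sets on which the family `f` is bounded modulo closed unbounded sets. -/
def Small {I : Type u} (f : I → K → K) (V : Set K) : Prop :=
  ∃ g : K → K, ∀ i, CLE V (f i) g

omit h [WellFoundedLT K] in
theorem Small.mono {I : Type u} {f : I → K → K} {V W : Set K} (hVW : V ⊆ W)
    (hW : Small f W) : Small f V := by
  obtain ⟨g, hg⟩ := hW
  refine ⟨g, fun i => ?_⟩
  obtain ⟨p, a, hpa⟩ := hg i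
  exact ⟨p, a, fun x hx => hpa x (hVW hx)⟩

omit [WellFoundedLT K] in
theorem Reg.small_iUnion {I ι : Type u} {f : I → K → K} (V : ι → Set K) (hι : Cardinal.mk ι < Cardinal.mk K)
    (hV : ∀ j, Small f (V j)) : Small f (⋃ j, V j) := by
  choose g hg using hV
  choose p a hpa using hg
  choose G hG using fun x => h.bdd (fun j => g j x) hι
  choose P hP using fun i x => h.bdd (fun j => p j i x) hι
  choose A hA using fun i => h.bdd (fun j => a j i) hι
  refine ⟨G, fun i => ⟨P i, A i, fun x hx h1 h2 => ?_⟩⟩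
  obtain ⟨j, hj⟩ := mem_iUnion.mp hx
  exact (hpa j i x hj ((hA i j).le.trans h1) (h2.mono (fun y => (hP i y j).le))).trans (hG x j).le

omit [WellFoundedLT K] in
theorem Reg.small_union {I : Type u} {f : I → K → K} {V W : Set K}
    (hV : Small f V) (hW : Small f W) : Small f (V ∪ W) := by
  have := h.small_iUnion (f := f) (ι := ULift.{u} Bool) (fun j => if j.down then V else W)
    (lt_of_le_of_lt (by simp) (((natCast_lt_aleph0 (n := 2)).trans h.unc))) (by
      rintro ⟨j⟩
      cases j
      · simpa using hW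
      · simpa using hV)
  refine this.mono ?_
  rintro x (hx | hx)
  · exact mem_iUnion.mpr ⟨⟨true⟩, by simpa using hx⟩
  · exact mem_iUnion.mpr ⟨⟨false⟩, by simpa using hx⟩

omit [WellFoundedLT K] in
theorem Reg.small_singleton {I : Type u} (f : I → K → K) (x : K) : Small f {x} := by
  obtain ⟨y, hy⟩ := h.exists_gt x
  refine ⟨id, fun i => ⟨id, y, fun z hz h1 _ => ?_⟩⟩
  rw [mem_singleton_iff.mp hz] at h1
  exact absurd h1 (not_le.mpr hy)

omit [WellFoundedLT K] in
/-- Diagonal unions of small sets are small. -/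
theorem Reg.small_diag {I : Type u} {f : I → K → K} (V : K → Set K) (hV : ∀ y, Small f (V y)) :
    Small f {x | ∃ y < x, x ∈ V y} := by
  choose g hg using hV
  choose p a hpa using hg
  have hG : ∀ x, ∃ b, ∀ y ≤ x, g y x < b := fun x => h.bddIic (fun y => g y x) x
  choose G hG using hG
  have hP : ∀ i x, ∃ b, ∀ y ≤ x, ∀ z ≤ x, p y i z < b := by
    intro i x
    choose b hb using fun y => h.bddIic (fun z => p y i z) x
    obtain ⟨c, hc⟩ := h.bddIic b x
    exact ⟨c, fun y hy z hz => (hb y z hz).trans (hc y hy)⟩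
  choose P hP using hP
  refine ⟨G, fun i => ⟨fun y => max (P i y) (a y i), (h.exists_pt).some, fun x hx _ h2 => ?_⟩⟩
  obtain ⟨y, hyx, hxy⟩ := hx
  refine (hpa y i x hxy ?_ ?_).trans (hG x y hyx.le).le
  · exact ((le_max_right _ _).trans_lt (h2 y hyx)).le
  · intro z hz
    have h3 := h2 (max y z) (max_lt hyx hz)
    exact lt_of_lt_of_le (hP i (max y z) y (le_max_left _ _) z (le_max_right _ _))
      ((le_max_left _ _).trans h3.le)

omit [WellFoundedLT K] in
/-- If every set is small or has small complement, then the complements of the small sets form a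
complete normal nonprincipal ultrafilter. -/
theorem Reg.exists_ultrafilter {I : Type u} (f : I → K → K) (hu : ¬ Small f univ)
    (hp : ∀ V, Small f V ∨ Small f Vᶜ) :
    ∃ U : Ultrafilter K, (∀ V, V ∈ U ↔ Small f Vᶜ) ∧ (∀ x, {x} ∉ U) ∧
      (∀ S : Set (Set K), Cardinal.mk S < Cardinal.mk K → (∀ s ∈ S, s ∈ U) → ⋂₀ S ∈ U) ∧
      ∀ V : K → Set K, (∀ y, V y ∈ U) → {x | ∀ y < x, x ∈ V y} ∈ U := by
  have hnot : ∀ V, Small f V → ¬ Small f Vᶜ := by
    intro V h1 h2
    apply hu
    have := h.small_union h1 h2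
    rwa [union_compl_self] at this
  let F : Filter K :=
    { sets := {V | Small f Vᶜ}
      univ_sets := by
        show Small f univᶜ
        rw [compl_univ]
        exact ⟨id, fun i => ⟨id, (h.exists_pt).some, fun x hx => absurd hx (by simp)⟩⟩
      sets_of_superset := by
        intro V W hV hVW
        exact Small.mono (compl_subset_compl.mpr hVW) hV
      inter_sets := by
        intro V W hV hW
        show Small f (V ∩ W)ᶜ
        rw [compl_inter]
        exact h.small_union hV hW }
  have hF : ∀ V, V ∈ F ↔ Small f Vᶜ := fun V => Iff.rfl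
  refine ⟨Ultrafilter.ofComplNotMemIff F ?_, ?_, ?_, ?_, ?_⟩
  · intro V
    rw [hF, hF, compl_compl]
    constructor
    · intro h1
      exact (hp V).resolve_left h1
    · intro h1 h2
      exact hnot V h2 h1
  · intro V
    exact Iff.rfl
  · intro x hx
    have hx' : Small f {x}ᶜ := hx
    exact hnot _ (h.small_singleton f x) hx'
  · intro S hS hSU
    show Small f (⋂₀ S)ᶜ
    have h1 : (⋂₀ S)ᶜ = ⋃ s : S, (s : Set K)ᶜ := by
      ext x; simp
    rw [h1]
    exact h.small_iUnion _ hS (fun s => hSU s s.2)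
  · intro V hV
    show Small f ({x | ∀ y < x, x ∈ V y})ᶜ
    have h1 : ({x | ∀ y < x, x ∈ V y})ᶜ = {x | ∃ y < x, x ∈ (V y)ᶜ} := by
      ext x; simp
    rw [h1]
    exact h.small_diag _ hV

omit h [WellFoundedLT K] in
/-- Step 2: the colouring. -/
theorem step2 {I : Type u} [LinearOrder I] (f : I → K → K) (V : Set K)
    (hV1 : ¬ Small f V) (hV2 : ¬ Small f Vᶜ)
    (hI : ∀ i : I, ∃ u : K → K, ∀ j < i, EvLE (f j) u) :
    ∃ c : I → K → Bool, ∀ (A : Set I) (B : Set K), (∀ i, ∃ j ∈ A, i < j) →
      (∀ x, ∃ y ∈ B, x < y) → ∀ b : Bool, ¬ ∀ i ∈ A, ∀ x ∈ B, c i x = b := by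
  classical
  choose u a hua using hI
  let T : I → K → Prop := fun i ξ =>
    ∃ y, Cl (u i) y ∧ y ≤ ξ ∧ y ∈ V ∧ ∀ e, Cl (u i) e → y < e → ξ < e
  refine ⟨fun i ξ => decide (T i ξ), ?_⟩
  intro A B hA hB b hAB
  choose g hg1 hg2 using hB
  choose j hj1 hj2 using hA
  cases b with
  | false =>
    apply hV1
    refine ⟨g, fun i => ⟨u (j i), a (j i) i (hj2 i), fun x hx h1 h2 => ?_⟩⟩
    refine (hua (j i) i (hj2 i) x h1).trans ?_
    by_contra hcon
    rw [not_le] at hcon
    have h3 := hAB (j i) (hj1 i) (g x) (hg1 x)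
    rw [decide_eq_false_iff_not] at h3
    apply h3
    exact ⟨x, h2, (hg2 x).le, hx, fun e he hxe => hcon.trans (he x hxe)⟩
  | true =>
    apply hV2
    refine ⟨g, fun i => ⟨u (j i), a (j i) i (hj2 i), fun x hx h1 h2 => ?_⟩⟩
    refine (hua (j i) i (hj2 i) x h1).trans ?_
    by_contra hcon
    rw [not_le] at hcon
    have h3 := hAB (j i) (hj1 i) (g x) (hg1 x)
    rw [decide_eq_true_iff] at h3
    obtain ⟨y, hy1, hy2, hy3, hy4⟩ := h3
    rcases lt_trichotomy y x with hyx | hyx | hyx
    · exact absurd (hy4 x h2 hyx) (not_lt.mpr (hg2 x).le)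
    · exact hx (hyx ▸ hy3)
    · exact absurd (hcon.trans (hy1 x hyx)) (not_lt.mpr hy2)

omit [WellFoundedLT K] in
/-- Families of at most as many functions as there are points in `K` are bounded. -/
theorem Reg.bdd_diag (F : Set (K → K)) (hF : Cardinal.mk F ≤ Cardinal.mk K) : ∃ g, ∀ f ∈ F, EvLE f g := by
  obtain ⟨e⟩ := Cardinal.le_def _ _ |>.mp hF
  have hb : ∀ x, ∃ b, ∀ f : F, e f ≤ x → (f : K → K) x < b := by
    intro x
    have hcard : Cardinal.mk {f : F // e f ≤ x} < Cardinal.mk K := by
      refine lt_of_le_of_lt (mk_le_of_injective (f := fun f : {f : F // e f ≤ x} =>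
        (⟨e f.1, f.2⟩ : Iic x)) ?_) (h.small x)
      intro f g hfg
      have := e.injective (congrArg Subtype.val hfg)
      exact Subtype.ext this
    obtain ⟨b, hb⟩ := h.bdd (fun f : {f : F // e f ≤ x} => (f.1 : K → K) x) hcard
    exact ⟨b, fun f hf => hb ⟨f, hf⟩⟩
  choose g hg using hb
  exact ⟨g, fun f hf => ⟨e ⟨f, hf⟩, fun x hx => (hg x ⟨f, hf⟩ hx).le⟩⟩

end Basic

/-! ### The bounding number -/

theorem bounding_mem {kap : Cardinal.{u}} (h : Reg kap.ord.ToType) :
    ∃ F : Set (kap.ord.ToType → kap.ord.ToType), Cardinal.mk F = bounding kap ∧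
      ¬ ∃ g : kap.ord.ToType → kap.ord.ToType, ∀ f ∈ F, EvLE f g := by
  have hne : {mu : Cardinal.{u} | ∃ F : Set (kap.ord.ToType → kap.ord.ToType), Cardinal.mk F = mu ∧
      ¬ ∃ g : kap.ord.ToType → kap.ord.ToType, ∀ f ∈ F, EvLE f g}.Nonempty := by
    refine ⟨Cardinal.mk (univ : Set (kap.ord.ToType → kap.ord.ToType)), univ, rfl, ?_⟩
    rintro ⟨g, hg⟩
    choose s hs using h.exists_gt
    obtain ⟨a, ha⟩ := hg (fun x => s (g x)) (mem_univ _)
    exact absurd (ha a le_rfl) (not_le.mpr (hs _))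
  exact csInf_mem hne

theorem bounded_of_lt {kap : Cardinal.{u}} (F : Set (kap.ord.ToType → kap.ord.ToType))
    (hF : Cardinal.mk F < bounding kap) :
    ∃ g : kap.ord.ToType → kap.ord.ToType, ∀ f ∈ F, EvLE f g := by
  by_contra hcon
  exact notMem_of_lt_csInf' hF ⟨F, rfl, hcon⟩

theorem lt_bounding {kap : Cardinal.{u}} (h : Reg kap.ord.ToType) : kap < bounding kap := by
  by_contra hcon
  rw [not_lt] at hcon
  obtain ⟨F, hF1, hF2⟩ := bounding_mem h
  refine hF2 (h.bdd_diag F ?_)
  rw [hF1, mk_toType, card_ord]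
  exact hcon

theorem exists_mem_gt {lam : Cardinal.{u}} (hl : ℵ₀ ≤ lam) (A : Set lam.ord.ToType)
    (hA : Cardinal.mk A = lam) (i : lam.ord.ToType) : ∃ j ∈ A, i < j := by
  by_contra hcon
  push Not at hcon
  have h1 : A ⊆ Iic i := fun j hj => hcon j hj
  have h2 : Cardinal.mk (Iic i) < lam := by
    have hsub : Iic i = Iio i ∪ {i} := by
      ext y; simp [le_iff_lt_or_eq]
    rw [hsub]
    refine lt_of_le_of_lt (mk_union_le _ _) ?_
    refine add_lt_of_lt hl (by simpa using Cardinal.mk_Iio_lt i) ?_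
    exact lt_of_lt_of_le (by simp) hl
  have h3 := mk_le_mk_of_subset h1
  rw [hA] at h3
  exact absurd h3 (not_le.mpr h2)

theorem main {kap : Cardinal.{u}} (h0 : ℵ₀ < kap) (hreg : kap.IsRegular)
    (hP : StrongPolarized (bounding kap) kap) :
    ∃ U : Ultrafilter kap.ord.ToType, IsNormalMeasure kap U ∧ ∀ V, V ∉ U ↔ BoundedOn kap V := by
  have h := reg_of_isRegular h0 hreg
  have hlt := lt_bounding h
  have hinf : ℵ₀ ≤ bounding kap := (h0.trans hlt).le
  -- an unbounded family, indexed by the bounding number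
  obtain ⟨F, hF1, hF2⟩ := bounding_mem h
  have hcard : Cardinal.mk (bounding kap).ord.ToType = Cardinal.mk F := by rw [mk_toType, card_ord, hF1]
  obtain ⟨e⟩ := Cardinal.eq.mp hcard
  -- a family which is not bounded modulo closed unbounded sets
  have hex : ∃ f : (bounding kap).ord.ToType → kap.ord.ToType → kap.ord.ToType,
      ¬ Small f univ := by
    by_contra hcon
    push Not at hcon
    obtain ⟨g, hg⟩ := h.step1 hcon (fun i => (e i : kap.ord.ToType → kap.ord.ToType))
    apply hF2
    refine ⟨g, fun f hf => ?_⟩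
    have := hg (e.symm ⟨f, hf⟩)
    simpa using this
  obtain ⟨f0, hf0⟩ := hex
  -- bounds for initial segments of a family
  have hI : ∀ (f : (bounding kap).ord.ToType → kap.ord.ToType → kap.ord.ToType)
      (i : (bounding kap).ord.ToType), ∃ u : kap.ord.ToType → kap.ord.ToType,
      ∀ j < i, EvLE (f j) u := by
    intro f i
    have h1 : Cardinal.mk (f '' Iio i) < bounding kap :=
      lt_of_le_of_lt mk_image_le (by simpa using Cardinal.mk_Iio_lt i)
    obtain ⟨g, hg⟩ := bounded_of_lt _ h1
    exact ⟨g, fun j hj => hg _ (mem_image_of_mem f hj)⟩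
  -- every set is small or has a small complement
  have hprime : ∀ (f : (bounding kap).ord.ToType → kap.ord.ToType → kap.ord.ToType) V,
      Small f V ∨ Small f Vᶜ := by
    intro f V
    by_contra hcon
    push Not at hcon
    obtain ⟨c, hc⟩ := step2 f V hcon.1 hcon.2 (hI f)
    obtain ⟨A, B, hA, hB, b, hAB⟩ := hP c
    exact hc A B (exists_mem_gt hinf A hA) (exists_mem_gt h0.le B hB) b hAB
  obtain ⟨U, hU0, hU1, hU2, hU3⟩ := h.exists_ultrafilter f0 hf0 (hprime f0)
  -- sets outside of `U` are small for all families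
  have hall : ∀ V, V ∉ U →
      ∀ f : (bounding kap).ord.ToType → kap.ord.ToType → kap.ord.ToType, Small f V := by
    intro V hV f
    have hV' : Small f0 V := by
      have := (hU0 Vᶜ).mp (Ultrafilter.compl_mem_iff_notMem.mpr hV)
      rwa [compl_compl] at this
    rcases hprime (fun i x => max (f0 i x) (f i x)) V with h1 | h1
    · obtain ⟨g, hg⟩ := h1
      refine ⟨g, fun i => ?_⟩
      obtain ⟨p, a, hpa⟩ := hg i
      exact ⟨p, a, fun x hx hx1 hx2 => (le_max_right _ _).trans (hpa x hx hx1 hx2)⟩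
    · exfalso
      apply hf0
      have h2 : Small f0 Vᶜ := by
        obtain ⟨g, hg⟩ := h1
        refine ⟨g, fun i => ?_⟩
        obtain ⟨p, a, hpa⟩ := hg i
        exact ⟨p, a, fun x hx hx1 hx2 => (le_max_left _ _).trans (hpa x hx hx1 hx2)⟩
      have := h.small_union hV' h2
      rwa [union_compl_self] at this
  refine ⟨U, ⟨hU1, fun S hS => hU2 S (by rwa [mk_toType, card_ord]), hU3⟩, fun V => ⟨?_, ?_⟩⟩
  · intro hV G hG
    rcases G.eq_empty_or_nonempty with rfl | hne
    · exact ⟨id, by simp⟩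
    have : Nonempty G := hne.to_subtype
    have hG' : Cardinal.mk G ≤ Cardinal.mk (bounding kap).ord.ToType := by rwa [mk_toType, card_ord]
    obtain ⟨⟨s, hs⟩⟩ := Cardinal.le_def _ _ |>.mp hG'
    let t : (bounding kap).ord.ToType → G := Function.invFun s
    have ht : ∀ x, t (s x) = x := Function.leftInverse_invFun hs
    obtain ⟨g, hg⟩ := hall V hV (fun i => (t i : kap.ord.ToType → kap.ord.ToType))
    refine ⟨g, fun f hf => (h.cle_iff _ _ _).mp ?_⟩
    have h3 := hg (s ⟨f, hf⟩)
    simpa only [ht] using h3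
  · intro hV hVU
    have h1 : Small f0 Vᶜ := (hU0 V).mp hVU
    obtain ⟨g, hg⟩ := hV (range f0) (by
      refine mk_range_le.trans ?_
      rw [mk_toType, card_ord])
    have h2 : Small f0 V := ⟨g, fun i => (h.cle_iff _ _ _).mpr (hg _ (mem_range_self i))⟩
    apply hf0
    have := h.small_union h2 h1
    rwa [union_compl_self] at this

/-! ### Weakly compact cardinals are regular -/

theorem IsWeaklyCompact.isRegular {kap : Cardinal.{u}} (h : IsWeaklyCompact kap) :
    kap.IsRegular := by
  obtain ⟨h0, hc⟩ := h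
  refine ⟨h0.le, ?_⟩
  by_contra hcon
  rw [not_le] at hcon
  obtain ⟨S, hS1, hS2⟩ := Order.exists_cof_eq kap.ord.ToType
  rw [Ordinal.cof_toType] at hS2
  classical
  choose p hp1 hp2 using hS1
  obtain ⟨H, hH, b, hHb⟩ := hc (fun x y => decide (p x = p y))
  have hHinf : ∀ x, ∃ y ∈ H, x < y := exists_mem_gt h0.le H hH
  cases b with
  | true =>
    have hne : H.Nonempty := by
      rw [← mk_set_ne_zero_iff, hH]
      exact ne_of_gt (lt_of_le_of_lt zero_le h0)
    obtain ⟨x, hx⟩ := hne
    obtain ⟨y, hy, hxy⟩ := hHinf (p x)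
    have h1 := hHb x hx y hy (lt_of_le_of_lt (hp2 x) hxy)
    rw [decide_eq_true_iff] at h1
    have h2 := hp2 y
    rw [← h1] at h2
    exact absurd h2 (not_le.mpr hxy)
  | false =>
    have hinj : ∀ x ∈ H, ∀ y ∈ H, x < y → p x ≠ p y := by
      intro x hx y hy hxy
      have h1 := hHb x hx y hy hxy
      rwa [decide_eq_false_iff_not] at h1
    have : Cardinal.mk H ≤ Cardinal.mk S := mk_le_of_injective (f := fun x : H => (⟨p x, hp1 x⟩ : S)) (by
      intro x y hxy
      have hxy' : p x = p y := congrArg Subtype.val hxy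
      rcases lt_trichotomy x.1 y.1 with h1 | h1 | h1
      · exact absurd hxy' (hinj _ x.2 _ y.2 h1)
      · exact Subtype.ext h1
      · exact absurd hxy'.symm (hinj _ y.2 _ x.2 h1))
    rw [hH, hS2] at this
    exact absurd this (not_le.mpr hcon)

/-- **Theorem.**
(1) Let `kap` be regular, uncountable and not measurable.  Then the strong polarized relation fails
for the pair `bounding kap`, `kap`.
(2) Let `kap` be weakly compact and not measurable.  If the strong polarized relation holds for the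
pair `succ kap`, `kap`, then `succ kap < bounding kap`.
(3) Let `kap` be regular and uncountable and suppose that the strong polarized relation holds for
the pair `bounding kap`, `kap`.  Then there is a normal measure `U` on `kap` such that a set
`V ⊆ kap` is outside of `U` if and only if every family of at most `bounding kap` functions is
bounded on `V` modulo closed unbounded sets.  Moreover every family of at most `bounding kap`
functions is bounded modulo `W`, for every other ultrafilter `W` containing all closed unbounded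
sets.
(4) If `kap` is weakly compact and the strong polarized relation holds for the pair `succ kap`,
`kap`, then `succ kap < bounding kap`, or `succ kap = bounding kap` and the conclusion of (3)
holds. -/
theorem result :
    (∀ kap : Cardinal.{u}, ℵ₀ < kap → kap.IsRegular → ¬ IsMeasurableCardinal kap →
      ¬ StrongPolarized (bounding kap) kap) ∧
    (∀ kap : Cardinal.{u}, IsWeaklyCompact kap → ¬ IsMeasurableCardinal kap →
      StrongPolarized (Order.succ kap) kap → Order.succ kap < bounding kap) ∧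
    (∀ kap : Cardinal.{u}, ℵ₀ < kap → kap.IsRegular → StrongPolarized (bounding kap) kap →
      ∃ U : Ultrafilter kap.ord.ToType, IsNormalMeasure kap U ∧
        (∀ V, V ∉ U ↔ BoundedOn kap V) ∧
        ∀ W : Ultrafilter kap.ord.ToType, W ≠ U → (∀ C, IsClub C → C ∈ W) →
          ∀ F : Set (kap.ord.ToType → kap.ord.ToType), Cardinal.mk F ≤ bounding kap →
            ∃ g : kap.ord.ToType → kap.ord.ToType, ∀ f ∈ F, {x | f x ≤ g x} ∈ W) ∧
    (∀ kap : Cardinal.{u}, IsWeaklyCompact kap → StrongPolarized (Order.succ kap) kap →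
      Order.succ kap < bounding kap ∨
      (Order.succ kap = bounding kap ∧
        ∃ U : Ultrafilter kap.ord.ToType, IsNormalMeasure kap U ∧
        (∀ V, V ∉ U ↔ BoundedOn kap V) ∧
        ∀ W : Ultrafilter kap.ord.ToType, W ≠ U → (∀ C, IsClub C → C ∈ W) →
          ∀ F : Set (kap.ord.ToType → kap.ord.ToType), Cardinal.mk F ≤ bounding kap →
            ∃ g : kap.ord.ToType → kap.ord.ToType, ∀ f ∈ F, {x | f x ≤ g x} ∈ W)) := by
  have key3 : ∀ kap : Cardinal.{u}, ℵ₀ < kap → kap.IsRegular →
      StrongPolarized (bounding kap) kap →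
      ∃ U : Ultrafilter kap.ord.ToType, IsNormalMeasure kap U ∧
        (∀ V, V ∉ U ↔ BoundedOn kap V) ∧
        ∀ W : Ultrafilter kap.ord.ToType, W ≠ U → (∀ C, IsClub C → C ∈ W) →
          ∀ F : Set (kap.ord.ToType → kap.ord.ToType), Cardinal.mk F ≤ bounding kap →
            ∃ g : kap.ord.ToType → kap.ord.ToType, ∀ f ∈ F, {x | f x ≤ g x} ∈ W := by
    intro kap h0 h1 h2
    obtain ⟨U, hU1, hU2⟩ := main h0 h1 h2
    refine ⟨U, hU1, hU2, fun W hW hWC F hF => ?_⟩
    obtain ⟨V, hV1, hV2⟩ : ∃ V, V ∈ W ∧ V ∉ U := by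
      by_contra hcon
      push Not at hcon
      apply hW
      exact (Ultrafilter.coe_le_coe.mp (fun V hV => by
        by_contra hVU
        exact Ultrafilter.compl_mem_iff_notMem.mp (hcon Vᶜ
          (Ultrafilter.compl_mem_iff_notMem.mpr hVU)) hV)).symm ▸ rfl
    obtain ⟨g, hg⟩ := (hU2 V).mp hV2 F hF
    refine ⟨g, fun f hf => ?_⟩
    obtain ⟨C, hC, hfg⟩ := hg f hf
    exact Filter.mem_of_superset (Filter.inter_mem hV1 (hWC C hC)) hfg
  refine ⟨fun kap h0 h1 h2 h3 => ?_, fun kap h1 h2 h3 => ?_, key3, fun kap h1 h3 => ?_⟩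
  · obtain ⟨U, hU, _⟩ := key3 kap h0 h1 h3
    exact h2 ⟨h0, U, hU.1, hU.2.1⟩
  · have hreg := h1.isRegular
    have hlt := lt_bounding (reg_of_isRegular h1.1 hreg)
    rcases (Order.succ_le_of_lt hlt).lt_or_eq with h4 | h4
    · exact h4
    · obtain ⟨U, hU, _⟩ := key3 kap h1.1 hreg (h4 ▸ h3)
      exact absurd ⟨h1.1, U, hU.1, hU.2.1⟩ h2
  · have hreg := h1.isRegular
    have hlt := lt_bounding (reg_of_isRegular h1.1 hreg)
    rcases (Order.succ_le_of_lt hlt).lt_or_eq with h4 | h4
    · exact Or.inl h4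
    · exact Or.inr ⟨h4, key3 kap h1.1 hreg (h4 ▸ h3)⟩

end Pool.Agent.Results.MP_668fe5_lc.BoundingNumber
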