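import Pool.Agent.LMach.TC
import Pool.Agent.LMach.NoThread
import Pool.Agent.LMach.Ult
import Pool.Agent.LMach.Red
import Pool.Agent.LMach.ZFWC

/-!
# The strong polarized relation at the successor of a weakly compact cardinal

We prove: if `κ` is weakly compact and the strong polarized relation `(κ⁺, κ) → (κ⁺, κ)` with two
colours holds, then there is a transitive set model `M` of ZFC whose ordinals are exactly the
ordinals below `κ`, and the set of all `l < κ` that are weakly compact cardinals in the sense of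
`M` is stationary in `κ`.

So the theory T (ZFC and there is a weakly compact cardinal `κ` with this relation) proves that
T_wc (ZFC and there is a weakly compact cardinal) has a transitive set model.
-/

open Set Cardinal

universe u

namespace Pool.Agent.Results.MP_668fe5_lc.ConsistencyStrength

/-! ### Weak compactness and the strong polarized relation -/

/-- `κ` is weakly compact: it is uncountable, and for every colouring of the pairs `x < y` of
elements of `κ` by two colours there is a homogeneous set of size `κ`. -/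
def WeaklyCompact (κ : Cardinal.{u}) : Prop :=
  ℵ₀ < κ ∧ ∀ c : κ.ord.ToType → κ.ord.ToType → Bool,
    ∃ H : Set κ.ord.ToType, Cardinal.mk H = κ ∧ ∃ i : Bool, ∀ x ∈ H, ∀ y ∈ H, x < y → c x y = i

/-- The strong polarized partition relation for `(lam, kap)` with two colours: for every
`c : lam × kap → 2` there are `A ⊆ lam` of size `lam` and `B ⊆ kap` of size `kap` such that `c` is
constant on `A × B`. -/
def StrongPolarized (lam kap : Cardinal.{u}) : Prop :=
  ∀ c : lam.ord.ToType → kap.ord.ToType → Bool,
    ∃ (A : Set lam.ord.ToType) (B : Set kap.ord.ToType),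
      Cardinal.mk A = lam ∧ Cardinal.mk B = kap ∧ ∃ i : Bool, ∀ a ∈ A, ∀ b ∈ B, c a b = i

/-! ### Transitive models of ZFC -/

/-- Formulas of set theory; variables are numbered by de Bruijn indices. -/
inductive Formula : Type
  /-- variable `i` is a member of variable `j` -/
  | mem (i j : ℕ) : Formula
  /-- variable `i` equals variable `j` -/
  | eq (i j : ℕ) : Formula
  /-- negation -/
  | neg (p : Formula) : Formula
  /-- conjunction -/
  | and (p q : Formula) : Formula
  /-- universal quantifier, binding variable `0` of `p` -/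
  | all (p : Formula) : Formula

/-- Put a new entry in front of an assignment. -/
def push (x : ZFSet.{u}) (e : ℕ → ZFSet.{u}) : ℕ → ZFSet.{u}
  | 0 => x
  | n + 1 => e n

/-- `Sat M p e`: the formula `p` is true in the structure `(M, ∈)` at the assignment `e`. -/
def Sat (M : ZFSet.{u}) : Formula → (ℕ → ZFSet.{u}) → Prop
  | Formula.mem i j, e => e i ∈ e j
  | Formula.eq i j, e => e i = e j
  | Formula.neg p, e => ¬ Sat M p e
  | Formula.and p q, e => Sat M p e ∧ Sat M q e
  | Formula.all p, e => ∀ x ∈ M, Sat M p (push x e)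

/-- `M` is a transitive model of ZFC: it is a transitive set, and `(M, ∈)` satisfies the axioms of
pairing, union, power set, infinity, the schemes of separation and replacement (with
parameters), and choice.  Extensionality and foundation hold in every transitive set. -/
structure TransModelZFC (M : ZFSet.{u}) : Prop where
  /-- `M` is transitive -/
  trans : M.IsTransitive
  /-- pairing -/
  pair : ∀ x ∈ M, ∀ y ∈ M, ({x, y} : ZFSet.{u}) ∈ M
  /-- union -/
  union : ∀ x ∈ M, ZFSet.sUnion x ∈ M
  /-- power set: every `x` in `M` has a power set in the sense of `M` -/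
  power : ∀ x ∈ M, ∃ y ∈ M, ∀ z ∈ M, z ∈ y ↔ z ⊆ x
  /-- infinity -/
  infinity : ∃ x ∈ M, (∅ : ZFSet.{u}) ∈ x ∧ ∀ y ∈ x, insert y y ∈ x
  /-- the scheme of separation, with parameters -/
  separation : ∀ (p : Formula) (e : ℕ → ZFSet.{u}), (∀ n, e n ∈ M) → ∀ x ∈ M,
    ∃ y ∈ M, ∀ z ∈ M, z ∈ y ↔ z ∈ x ∧ Sat M p (push z e)
  /-- the scheme of replacement, with parameters -/
  replacement : ∀ (p : Formula) (e : ℕ → ZFSet.{u}), (∀ n, e n ∈ M) → ∀ x ∈ M,
    (∀ z ∈ M, z ∈ x → ∃! w, w ∈ M ∧ Sat M p (push w (push z e))) →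
    ∃ y ∈ M, ∀ w ∈ M, w ∈ y ↔ ∃ z ∈ x, Sat M p (push w (push z e))
  /-- choice: every family of nonempty pairwise disjoint sets has a transversal -/
  choice : ∀ x ∈ M, (∀ y ∈ x, y ≠ ∅) → (∀ y ∈ x, ∀ z ∈ x, y ≠ z → y ∩ z = ∅) →
    ∃ t ∈ M, ∀ y ∈ x, ∃! z, z ∈ t ∧ z ∈ y

/-! ### Weakly compact cardinals of a transitive model -/

/-- `f` is a bijection from `x` onto `y`, as a set of ordered pairs. -/
def IsBijection (f x y : ZFSet.{u}) : Prop :=
  (∀ z ∈ f, ∃ a ∈ x, ∃ b ∈ y, z = ZFSet.pair a b) ∧
  (∀ a ∈ x, ∃! b, ZFSet.pair a b ∈ f) ∧ (∀ b ∈ y, ∃! a, ZFSet.pair a b ∈ f)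

/-- `l` is a weakly compact cardinal in the sense of the transitive model `M`: it is an ordinal
of `M` above `ω`; it is a cardinal of `M`, that is, `M` has no bijection between `l` and an
element of `l`; and `M` satisfies `l → (l)²₂`: for every `c` in `M` there is a subset `H` of `l` in
`M` that is in bijection with `l` by a function in `M` and is homogeneous for the colouring of the
pairs `x ∈ y` of elements of `l` according to whether the ordered pair `(x, y)` is in `c`. -/
def WeaklyCompactIn (M l : ZFSet.{u}) : Prop :=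
  l ∈ M ∧ l.IsOrdinal ∧ ZFSet.omega ∈ l ∧ (∀ a ∈ l, ∀ f ∈ M, ¬ IsBijection f a l) ∧
  ∀ c ∈ M, ∃ H ∈ M, H ⊆ l ∧ (∃ f ∈ M, IsBijection f l H) ∧
    ((∀ x ∈ H, ∀ y ∈ H, x ∈ y → ZFSet.pair x y ∈ c) ∨
     (∀ x ∈ H, ∀ y ∈ H, x ∈ y → ZFSet.pair x y ∉ c))

/-! ### Translation of formulas -/

/-- The same formula in the language used by the library. -/
def tr : Formula → LMach.Fml
  | Formula.mem i j => LMach.Fml.mem i j
  | Formula.eq i j => LMach.Fml.eq i j
  | Formula.neg p => LMach.Fml.neg (tr p)
  | Formula.and p q => LMach.Fml.and (tr p) (tr q)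
  | Formula.all p => LMach.Fml.all (tr p)

theorem push_eq (x : ZFSet.{u}) (e : ℕ → ZFSet.{u}) : push x e = LMach.zcons x e := by
  funext n
  cases n <;> rfl

theorem sat_iff (M : ZFSet.{u}) (p : Formula) : ∀ e : ℕ → ZFSet.{u},
    Sat M p e ↔ LMach.Holds M (tr p) e := by
  induction p with
  | mem i j => intro e; exact Iff.rfl
  | eq i j => intro e; exact Iff.rfl
  | neg p ih => intro e; exact not_congr (ih e)
  | and p q ihp ihq => intro e; exact and_congr (ihp e) (ihq e)
  | all p ih =>
    intro e
    simp only [Sat, tr, LMach.Holds]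
    refine forall₂_congr fun x _ => ?_
    rw [ih, push_eq]

theorem transModelZFC {M : ZFSet.{u}} (h : LMach.TransModel M) : TransModelZFC M where
  trans := h.trans
  pair := h.pair
  union := h.union
  power := h.power
  infinity := h.infinity
  separation := by
    intro p e he x hx
    simp only [sat_iff, push_eq]
    exact h.separation (tr p) e he x hx
  replacement := by
    intro p e he x hx
    simp only [sat_iff, push_eq]
    exact h.replacement (tr p) e he x hx
  choice := h.choice

/-! ### The theorem -/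

/-- If `κ` is weakly compact and the strong polarized relation holds for `(κ⁺, κ)` and two colours,
then there is a transitive set model `M` of ZFC whose ordinals are exactly the ordinals below `κ`,
such that the `l < κ` that are weakly compact cardinals in the sense of `M` form a stationary
subset of `κ`: every `f : κ → κ` has such an `l` among its closure points. -/
theorem result (κ : Cardinal.{u}) (hwc : WeaklyCompact κ)
    (hsp : StrongPolarized (Order.succ κ) κ) :
    ∃ M : ZFSet.{u}, TransModelZFC M ∧ (∀ a : Ordinal.{u}, a.toZFSet ∈ M ↔ a < κ.ord) ∧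
      ∀ f : Ordinal.{u} → Ordinal.{u}, (∀ x < κ.ord, f x < κ.ord) →
        ∃ l < κ.ord, (∀ x < l, f x < l) ∧ WeaklyCompactIn M l.toZFSet := by
  have hwc' : LMach.WC κ := hwc
  have hsp' : LMach.SP (Order.succ κ) κ := hsp
  obtain ⟨hreg, hsl⟩ := LMach.p_SL κ hwc'
  obtain ⟨M, hM, hMκ, hG⟩ := LMach.p_ZF κ hwc'.1 hreg hsl
  refine ⟨M, transModelZFC hM, hMκ, fun f hf => ?_⟩
  have hBP : LMach.T_BP.{u} :=
    LMach.p_BP LMach.p_LOC LMach.p_MEM LMach.p_REC LMach.p_RED LMach.p_NUL LMach.p_SL
  have hNT : LMach.T_NT.{u} :=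
    LMach.p_NT LMach.p_LOC LMach.p_MEM LMach.p_CT LMach.p_TR LMach.p_CL LMach.p_HULL
      LMach.p_TRANS LMach.hcohx
  obtain ⟨l, hl, hfl, hgood⟩ : ∃ l < κ.ord, (∀ x < l, f x < l) ∧ LMach.Good κ.ord l := by
    by_cases hnew : ∀ y < (Order.succ κ).ord, ∃ e < (Order.succ κ).ord, y < e ∧
        LMach.New κ.ord e
    · exact LMach.p_C1 hBP hNT κ hwc' hsp' hnew f hf
    · push Not at hnew
      exact LMach.p_C2 LMach.p_LOC LMach.p_MEM LMach.p_REC LMach.p_RED LMach.p_NUL LMach.p_SL
        κ hwc' hnew f hf
  exact ⟨l, hl, hfl, hG l hl hgood⟩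

end Pool.Agent.Results.MP_668fe5_lc.ConsistencyStrength
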